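import Pool.Agent.H76.HB.Stmt

/-! Row UN: uniqueness of atomic submodels. -/

set_option autoImplicit false

open Set Pool.Agent.TK Pool.Agent.ST

namespace Pool.Agent.HB

variable {C : Type}

lemma un_s_mem {X : Set (St C)} {r : Rk} {M : St C} {s : List ℕ} {a : ℕ → List ℕ} {A : Set ℕ}
    (h : ATS X r M s a A) : ∀ z ∈ s, z ∈ A := fun z hz =>
  (h.mem z).2 ⟨0, List.mem_append.2 (Or.inr hz)⟩

lemma un_fin {X : Set (St C)} {r : Rk} {M : St C} {s : List ℕ} {a : ℕ → List ℕ} {A : Set ℕ}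
    (h : ATS X r M s a A) (x : List ℕ) (hx : ∀ z ∈ x, z ∈ A) : ∃ j, ∀ z ∈ x, z ∈ a j ++ s := by
  have hmono : ∀ i j, i ≤ j → ∀ z ∈ a i, z ∈ a j := by
    intro i j hij
    induction hij with
    | refl => exact fun z hz => hz
    | step _ ih => exact fun z hz => h.mono _ z (ih z hz)
  induction x with
  | nil => exact ⟨0, by simp⟩
  | cons u x ih =>
    obtain ⟨i, hi⟩ := ih (fun z hz => hx z (List.mem_cons_of_mem _ hz))
    obtain ⟨j, hj⟩ := (h.mem u).1 (hx u List.mem_cons_self)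
    refine ⟨max i j, ?_⟩
    intro z hz
    rw [List.mem_append]
    rcases List.mem_cons.1 hz with rfl | hz
    · rcases List.mem_append.1 hj with h | h
      · exact Or.inl (hmono j _ (le_max_right i j) _ h)
      · exact Or.inr h
    · rcases List.mem_append.1 (hi z hz) with h | h
      · exact Or.inl (hmono i _ (le_max_left i j) _ h)
      · exact Or.inr h

lemma un_zip_map (p : List (ℕ × ℕ)) : (p.map Prod.fst).zip (p.map Prod.snd) = p := by
  induction p with
  | nil => rfl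
  | cons z p ih => rw [List.map_cons, List.map_cons, List.zip_cons_cons, ih]

lemma un_mem_zip : ∀ (x y : List ℕ), x.length = y.length → ∀ c ∈ x, ∃ d ∈ y, (c, d) ∈ x.zip y := by
  intro x
  induction x with
  | nil => intro y _ c hc; exact absurd hc (by simp)
  | cons u x ih =>
    intro y hy c hc
    cases y with
    | nil => simp at hy
    | cons v y =>
      rw [List.zip_cons_cons]
      rcases List.mem_cons.1 hc with rfl | hc
      · exact ⟨v, List.mem_cons_self, List.mem_cons_self⟩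
      · obtain ⟨d, hd, h⟩ := ih y (by simpa using hy) c hc
        exact ⟨d, List.mem_cons_of_mem _ hd, List.mem_cons_of_mem _ h⟩

/-- one step of the zig-zag -/
lemma un_forth (hTVM : TVM C) {X : Set (St C)} {r : Rk} {M M' : St C} {s s' : List ℕ}
    {a a' : ℕ → List ℕ} {A A' : Set ℕ} (hM' : M' ∈ X) (hA : ATS X r M s a A)
    (hA' : ATS X r M' s' a' A') (hs : EB (Rk.lim r) M s M' s') {p : List (ℕ × ℕ)}
    (hp : bf M M' univ univ (Rk.lim r) p) (hsp : ∀ z ∈ s.zip s', z ∈ p)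
    (hpA : ∀ z ∈ p, z.1 ∈ A ∧ z.2 ∈ A') {c : ℕ} (hc : c ∈ A) :
    ∃ d ∈ A', bf M M' univ univ (Rk.lim r) ((c, d) :: p) := by
  obtain ⟨j, hj⟩ := un_fin hA (c :: p.map Prod.fst) (by
    intro z hz
    rcases List.mem_cons.1 hz with rfl | hz
    · exact hc
    · obtain ⟨w, hw, rfl⟩ := List.mem_map.1 hz
      exact (hpA w hw).1)
  obtain ⟨m, hm⟩ := hA.isl j
  obtain ⟨y0, hy0, -, h1⟩ := lim_ext_suc hp m (a j) (fun z _ => mem_univ z)
  obtain ⟨t, ht, htA, h2⟩ := hTVM X r M' s' a' A' hA' (p.map Prod.snd) (by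
    intro z hz
    obtain ⟨w, hw, rfl⟩ := List.mem_map.1 hz
    exact (hpA w hw).2) y0 m
  have h3 : bf M M' univ univ (Rk.sucN m r) ((a j).zip t ++ p) := by
    have e1 : (a j ++ p.map Prod.fst).zip (y0 ++ p.map Prod.snd) = (a j).zip y0 ++ p := by
      rw [List.zip_append hy0.symm, un_zip_map]
    have e2 : (a j ++ p.map Prod.fst).zip (t ++ p.map Prod.snd) = (a j).zip t ++ p := by
      rw [List.zip_append (by rw [ht, hy0]), un_zip_map]
    rw [← e1] at h1
    rw [← e2]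
    exact bf_trans (by simp [hy0]) h2.1 h1 h2.2
  have hlt : (a j).length = t.length := by rw [ht, hy0]
  have hz1 : (a j ++ s).zip (t ++ s') = (a j).zip t ++ s.zip s' := List.zip_append hlt
  have hsub : ∀ z ∈ (a j ++ s).zip (t ++ s'), z ∈ (a j).zip t ++ p := by
    intro z hz
    rw [hz1] at hz
    rcases List.mem_append.1 hz with hz | hz
    · exact List.mem_append.2 (Or.inl hz)
    · exact List.mem_append.2 (Or.inr (hsp z hz))
  have hlen : (a j ++ s).length = (t ++ s').length := by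
    have := hs.1
    simp only [List.length_append]
    omega
  have h4 : EB (Rk.lim r) M (a j ++ s) M' (t ++ s') :=
    hm M' hM' s' t hs ⟨hlen, bf_mono h3 hsub⟩
  obtain ⟨d, hd, hcd⟩ := un_mem_zip _ _ hlen c (hj c List.mem_cons_self)
  refine ⟨d, ?_, ?_⟩
  · rcases List.mem_append.1 hd with hd | hd
    · exact htA d hd
    · exact un_s_mem hA' d hd
  · refine bf_mono h4.2 ?_
    intro z hz
    rcases List.mem_cons.1 hz with rfl | hz
    · exact hcd
    · obtain ⟨v, _, hv⟩ := un_mem_zip _ _ hlen z.1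
        (hj z.1 (List.mem_cons_of_mem _ (List.mem_map_of_mem hz)))
      have h5 : z.2 = v := ((bf_PI h3).1 z (List.mem_append.2 (Or.inr hz)) (z.1, v)
        (hsub _ hv)).1 rfl
      have h6 : z = (z.1, v) := by rw [← h5]
      rw [h6]
      exact hv

theorem pf_UN {C : Type} (hSC2 : SC2 C) (hTVM : TVM C) : UN C := by
  intro X r M M' s s' a a' A A' U U' hM hM' hA hA' hs hU hU' hrec
  have hzs : ∀ z ∈ s.zip s', z.1 ∈ A ∧ z.2 ∈ A' := fun z hz =>
    ⟨un_s_mem hA _ (List.of_mem_zip hz).1, un_s_mem hA' _ (List.of_mem_zip hz).2⟩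
  have hrec' : ∀ (p : List (ℕ × ℕ)), (∀ z ∈ s.zip s', z ∈ p) → ∀ c ∈ A, ∀ d ∈ A',
      bf M M' univ univ (Rk.lim r) ((c, d) :: p) → (c ∈ U ↔ d ∈ U') := by
    intro p hp c hc d hd h
    refine hrec c hc d hd ⟨by simpa using hs.1, bf_mono h ?_⟩
    intro z hz
    rw [List.zip_cons_cons] at hz
    rcases List.mem_cons.1 hz with rfl | hz
    · exact List.mem_cons_self
    · exact List.mem_cons_of_mem _ (hp z hz)
  let Q : List (ℕ × ℕ) → Prop := fun p => bf M M' univ univ (Rk.lim r) p ∧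
    (∀ z ∈ s.zip s', z ∈ p) ∧ ∀ z ∈ p, z ∈ s.zip s' ∨ (z.1 ∈ U ∧ z.2 ∈ U')
  have hQA : ∀ p, Q p → ∀ z ∈ p, z.1 ∈ A ∧ z.2 ∈ A' := by
    intro p hp z hz
    rcases hp.2.2 z hz with h | h
    · exact hzs z h
    · exact ⟨hU h.1, hU' h.2⟩
  have hQc : ∀ p, Q p → ∀ c ∈ U, ∀ d ∈ U', bf M M' univ univ (Rk.lim r) ((c, d) :: p) →
      Q ((c, d) :: p) := by
    intro p hp c hc d hd h
    refine ⟨h, fun z hz => List.mem_cons_of_mem _ (hp.2.1 z hz), fun z hz => ?_⟩
    rcases List.mem_cons.1 hz with rfl | hz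
    · exact Or.inr ⟨hc, hd⟩
    · exact hp.2.2 z hz
  obtain ⟨h, hbij, hpi⟩ := hSC2 M M' U U' Q (s.zip s') ⟨hs.2, fun z hz => hz, fun z hz => Or.inl hz⟩
    (fun p hp => bf_PI hp.1)
    (by
      intro p hp c hc
      obtain ⟨d, hd, hb⟩ := un_forth hTVM hM' hA hA' hs hp.1 hp.2.1 (hQA p hp) (hU hc)
      have hd' : d ∈ U' := (hrec' p hp.2.1 c (hU hc) d hd hb).1 hc
      exact ⟨d, hd', hQc p hp c hc d hd' hb⟩)
    (by
      intro p hp d hd
      obtain ⟨c, hc, hb⟩ := un_forth hTVM hM hA' hA hs.symm (bf_symm hp.1)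
        (p := p.map Prod.swap) (by
          intro z hz
          rw [← swap_zip s s'] at hz
          obtain ⟨w, hw, rfl⟩ := List.mem_map.1 hz
          exact List.mem_map_of_mem (hp.2.1 w hw)) (by
          intro z hz
          obtain ⟨w, hw, rfl⟩ := List.mem_map.1 hz
          exact ⟨(hQA p hp w hw).2, (hQA p hp w hw).1⟩) (hU' hd)
      have hb' : bf M M' univ univ (Rk.lim r) ((c, d) :: p) := by
        have h1 := bf_symm hb
        rw [List.map_cons, List.map_map, Prod.swap_swap_eq, List.map_id] at h1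
        exact h1
      have hc' : c ∈ U := (hrec' p hp.2.1 c hc d (hU' hd) hb').2 hd
      exact ⟨c, hc', hQc p hp c hc' d hd hb'⟩)
  exact ⟨h, hs.1, hbij, hpi⟩

end Pool.Agent.HB
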